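import Pool.Agent.helper81.CW.Spec2

/-! # Project cw: module G1 (the Gaussian measure is a symmetric probability measure) -/

open MeasureTheory Set
open scoped ENNReal Pointwise

namespace Pool.Agent.helper81.CW

theorem G1_int (n : ℕ) : ∫ x : E n, Real.exp (-‖x‖ ^ 2 / 2) = Real.sqrt (2 * Real.pi) ^ n := by
  have h := GaussianFourier.integral_rexp_neg_mul_sq_norm (V := E n) (b := 1 / 2) (by norm_num)
  have e1 : (fun x : E n => Real.exp (-‖x‖ ^ 2 / 2)) = fun x : E n => Real.exp (-(1 / 2) * ‖x‖ ^ 2) := by
    funext x
    congr 1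
    ring
  rw [e1, h, finrank_euclideanSpace_fin]
  have e2 : Real.pi / (1 / 2) = 2 * Real.pi := by ring
  rw [e2, Real.sqrt_eq_rpow, ← Real.rpow_natCast, ← Real.rpow_mul (by positivity)]
  congr 1
  ring

theorem G1_integrable (n : ℕ) : Integrable (fun x : E n => Real.exp (-‖x‖ ^ 2 / 2)) := by
  by_contra h
  have h1 := integral_undef h
  rw [G1_int] at h1
  have h2 : 0 < Real.sqrt (2 * Real.pi) ^ n := by positivity
  exact h2.ne' h1

theorem G1_meas (n : ℕ) : Measurable (fun x : E n =>
    ENNReal.ofReal (Real.exp (-‖x‖ ^ 2 / 2) / Real.sqrt (2 * Real.pi) ^ n)) := by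
  fun_prop

theorem G1 : G1_stmt := by
  intro n
  constructor
  · constructor
    unfold gm
    rw [withDensity_apply _ MeasurableSet.univ, Measure.restrict_univ]
    rw [← ofReal_integral_eq_lintegral_ofReal]
    · rw [integral_div, G1_int, div_self (by positivity), ENNReal.ofReal_one]
    · exact (G1_integrable n).div_const _
    · exact Filter.Eventually.of_forall fun x => by positivity
  · ext S hS
    have hneg : Measurable (fun x : E n => -x) := measurable_neg
    rw [Measure.map_apply hneg hS]
    unfold gm
    rw [withDensity_apply _ (hneg hS), withDensity_apply _ hS]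
    have hmp : MeasurePreserving (fun x : E n => -x) volume volume := Measure.measurePreserving_neg _
    rw [← hmp.setLIntegral_comp_preimage hS (G1_meas n)]
    simp only [norm_neg]

end Pool.Agent.helper81.CW
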