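import Pool.Agent.helper81.CW.Spec2
import Pool.Agent.helper96.PL2
import Pool.Agent.helper74.CW.G1

/-! # Project cw: module G2 (property tau of the Gaussian measure, from Prekopa-Leindler) -/

open MeasureTheory Set
open scoped ENNReal Pointwise

namespace Pool.Agent.helper81.CW

theorem G2_lip_cont {n : ℕ} {g : E n → ℝ} {R : ℝ} (hR : 0 ≤ R)
    (hg : ∀ x y, |g x - g y| ≤ R * ‖x - y‖) : Continuous g := by
  have : LipschitzWith R.toNNReal g := by
    apply LipschitzWith.of_dist_le_mul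
    intro x y
    rw [Real.dist_eq, dist_eq_norm, Real.coe_toNNReal _ hR]
    exact hg x y
  exact this.continuous

theorem G2_lint (n : ℕ) (F : E n → ℝ≥0∞) (hF : Measurable F) :
    ∫⁻ x, F x = ∫⁻ y : Fin n → ℝ, F ((MeasurableEquiv.toLp 2 (Fin n → ℝ)) y) := by
  have e := (EuclideanSpace.volume_preserving_symm_measurableEquiv_toLp (Fin n)).symm
  rw [← e.lintegral_comp hF]
  rfl

/-- Prekopa-Leindler on `E n`, exponent 1/2 -/
theorem G2_PL (n : ℕ) {f g h : E n → ℝ≥0∞} (hf : Measurable f) (hg : Measurable g)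
    (hh : Measurable h) (H : ∀ x y, f x * g y ≤ h ((1 / 2 : ℝ) • (x + y)) ^ 2) :
    (∫⁻ x, f x) * (∫⁻ x, g x) ≤ (∫⁻ x, h x) ^ 2 := by
  have hm : Measurable (MeasurableEquiv.toLp 2 (Fin n → ℝ)) := MeasurableEquiv.measurable _
  have key := Pool.Agent.helper96.prekopa_leindler (t := 1 / 2) (by norm_num) (by norm_num) n
    (f := fun y => f ((MeasurableEquiv.toLp 2 (Fin n → ℝ)) y))
    (g := fun y => g ((MeasurableEquiv.toLp 2 (Fin n → ℝ)) y))
    (h := fun y => h ((MeasurableEquiv.toLp 2 (Fin n → ℝ)) y))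
    (hf.comp hm) (hg.comp hm) (hh.comp hm) ?_
  · rw [G2_lint n f hf, G2_lint n g hg, G2_lint n h hh]
    rw [show (1 - 1 / 2 : ℝ) = 1 / 2 by norm_num, ← ENNReal.mul_rpow_of_nonneg _ _ (by norm_num)] at key
    have h2 := ENNReal.rpow_le_rpow key (z := 2) (by norm_num)
    rw [← ENNReal.rpow_mul] at h2
    norm_num at h2
    exact h2
  · intro x y
    rw [show (1 - 1 / 2 : ℝ) = 1 / 2 by norm_num, ← ENNReal.mul_rpow_of_nonneg _ _ (by norm_num)]
    have h1 := H ((MeasurableEquiv.toLp 2 (Fin n → ℝ)) x) ((MeasurableEquiv.toLp 2 (Fin n → ℝ)) y)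
    have h2 := ENNReal.rpow_le_rpow h1 (z := 1 / 2) (by norm_num)
    refine h2.trans (le_of_eq ?_)
    rw [← ENNReal.rpow_natCast, ← ENNReal.rpow_mul]
    norm_num

theorem G2 : G2_stmt := by
  intro n g R hR hg
  have hgc : Continuous g := G2_lip_cont hR hg
  have hgm : Measurable g := hgc.measurable
  set c : ℝ := Real.sqrt (2 * Real.pi) ^ n with hc
  have hc0 : 0 < c := by positivity
  have hρ := G1_meas n
  have key := G2_PL n
    (f := fun x => ENNReal.ofReal (Real.exp (-‖x‖ ^ 2 / 2) / c * Real.exp (g x - R ^ 2)))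
    (g := fun x => ENNReal.ofReal (Real.exp (-‖x‖ ^ 2 / 2) / c * Real.exp (-g x)))
    (h := fun x => ENNReal.ofReal (Real.exp (-‖x‖ ^ 2 / 2) / c))
    (by fun_prop) (by fun_prop) (by fun_prop) ?_
  · have hone : ∫⁻ x : E n, ENNReal.ofReal (Real.exp (-‖x‖ ^ 2 / 2) / c) = 1 := by
      have h1 := (G1 n).1.measure_univ
      unfold gm at h1
      rw [withDensity_apply _ MeasurableSet.univ, Measure.restrict_univ] at h1
      exact h1
    rw [hone, one_pow] at key
    have hF : ∀ u : E n → ℝ, Measurable u → ∫ x, Real.exp (u x) ∂(gm n) =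
        (∫⁻ x : E n, ENNReal.ofReal (Real.exp (-‖x‖ ^ 2 / 2) / c * Real.exp (u x))).toReal := by
      intro u hu
      rw [integral_eq_lintegral_of_nonneg_ae (Filter.Eventually.of_forall fun x => (Real.exp_pos _).le)
        (by fun_prop)]
      congr 1
      unfold gm
      rw [lintegral_withDensity_eq_lintegral_mul _ hρ (by fun_prop)]
      congr 1
      funext x
      rw [Pi.mul_apply, ← ENNReal.ofReal_mul (by positivity)]
    have h1 := hF (fun x => g x - R ^ 2) (by fun_prop)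
    have h2 := hF (fun x => -g x) (by fun_prop)
    have h3 : ∫ x, Real.exp (g x) ∂(gm n) = Real.exp (R ^ 2) * ∫ x, Real.exp (g x - R ^ 2) ∂(gm n) := by
      rw [← integral_const_mul]
      congr 1
      funext x
      rw [← Real.exp_add]
      congr 1
      ring
    rw [h3, mul_assoc, h1, h2, ← ENNReal.toReal_mul]
    have h4 := ENNReal.toReal_mono ENNReal.one_ne_top key
    rw [ENNReal.toReal_one] at h4
    calc Real.exp (R ^ 2) * _ ≤ Real.exp (R ^ 2) * 1 := mul_le_mul_of_nonneg_left h4 (Real.exp_pos _).le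
      _ = Real.exp (R ^ 2) := mul_one _
  · intro x y
    rw [← ENNReal.ofReal_mul (by positivity), ← ENNReal.ofReal_pow (by positivity)]
    apply ENNReal.ofReal_le_ofReal
    have e1 : Real.exp (-‖x‖ ^ 2 / 2) / c * Real.exp (g x - R ^ 2) *
        (Real.exp (-‖y‖ ^ 2 / 2) / c * Real.exp (-g y)) =
        Real.exp (-‖x‖ ^ 2 / 2 + (g x - R ^ 2) + (-‖y‖ ^ 2 / 2) + (-g y)) / c ^ 2 := by
      rw [Real.exp_add, Real.exp_add, Real.exp_add]
      field_simp
    have e2 : (Real.exp (-‖(1 / 2 : ℝ) • (x + y)‖ ^ 2 / 2) / c) ^ 2 =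
        Real.exp (-‖(1 / 2 : ℝ) • (x + y)‖ ^ 2) / c ^ 2 := by
      rw [div_pow, ← Real.exp_nat_mul]
      congr 2
      push_cast
      ring
    rw [e1, e2]
    apply div_le_div_of_nonneg_right _ (by positivity)
    apply Real.exp_le_exp.2
    have e3 : ‖(1 / 2 : ℝ) • (x + y)‖ ^ 2 = (‖x‖ ^ 2 + ‖y‖ ^ 2) / 2 - ‖x - y‖ ^ 2 / 4 := by
      rw [norm_smul, mul_pow]
      have h1 := parallelogram_law_with_norm ℝ x y
      have h2 : ‖(1 / 2 : ℝ)‖ ^ 2 = 1 / 4 := by norm_num
      rw [h2]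
      nlinarith [h1]
    rw [e3]
    have h1 := (abs_le.1 (hg x y)).2
    nlinarith [sq_nonneg (R - ‖x - y‖ / 2)]

end Pool.Agent.helper81.CW
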